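import Mathlib

/-!
# The random substitution a to abaa, aaba and b to abab, baba, and its subshift

The letter a is false, the letter b is true.
-/

namespace Pool.Agent.H96au

/-- The two words of the image of a letter; the letter a is false, the letter b is true:
a to abaa or aaba, b to abab or baba. -/
def W (y c : Bool) : List Bool :=
  match y, c with
  | false, false => [false, true, false, false]
  | false, true => [false, false, true, false]
  | true, false => [false, true, false, true]
  | true, true => [true, false, true, false]

/-- The word v belongs to the image of the word u: each letter is replaced by one of its two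
words, independently. -/
inductive Inflates : List Bool → List Bool → Prop
  | nil : Inflates [] []
  | cons (y c : Bool) (u v : List Bool) : Inflates u v → Inflates (y :: u) (W y c ++ v)

/-- The set of words obtained from the letter a by k steps of the random substitution. -/
def Lev : ℕ → Set (List Bool)
  | 0 => {[false]}
  | k + 1 => {v | ∃ u ∈ Lev k, Inflates u v}

/-- A word is legal if it occurs in some word of some level. -/
def Legal (w : List Bool) : Prop := ∃ k, ∃ v ∈ Lev k, w <:+: v

/-- The factor of length n of x starting at the position i. -/
def fac (x : ℤ → Bool) (i : ℤ) (n : ℕ) : List Bool :=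
  (List.range n).map (fun j : ℕ => x (i + (j : ℤ)))

/-- The subshift of the random substitution. -/
def X : Set (ℤ → Bool) := {x | ∀ (i : ℤ) (n : ℕ), Legal (fac x i n)}

/-- The letters of the word of a letter y with the choice c. -/
def Wf (y c : Bool) (t : ℤ) : Bool :=
  if t = 0 then (y && c) else if t = 1 then !c else if t = 2 then c else (y && !c)

/-- x is cut at the positions r + 4 i into the words of the letters y i with the choices c i. -/
def Dec (x : ℤ → Bool) (r : ℤ) (y c : ℤ → Bool) : Prop :=
  ∀ i : ℤ, x (r + 4 * i) = (y i && c i) ∧ x (r + 4 * i + 1) = !(c i) ∧
    x (r + 4 * i + 2) = c i ∧ x (r + 4 * i + 3) = (y i && !(c i))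

/-- Recomposition. -/
def rcp (r : ℤ) (y c : ℤ → Bool) : ℤ → Bool :=
  fun n => Wf (y ((n - r) / 4)) (c ((n - r) / 4)) ((n - r) % 4)

end Pool.Agent.H96au
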