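import Mathlib

namespace Pool.Agent.H96au

open Equiv

lemma cycleType_invol {Ω : Type*} [Fintype Ω] [DecidableEq Ω] (τ : Perm Ω) (h1 : τ * τ = 1)
    (h2 : ∀ w, τ w ≠ w) (hne : Nonempty Ω) :
    ∃ n : ℕ, τ.cycleType = Multiset.replicate n 2 ∧ n * 2 = Fintype.card Ω := by
  have hord : orderOf τ = 2 := by
    apply orderOf_eq_prime
    · rw [pow_two, h1]
    · intro h
      obtain ⟨w⟩ := hne
      exact h2 w (by rw [h]; rfl)
  obtain ⟨n, hn⟩ := Equiv.Perm.cycleType_prime_order (σ := τ) (by rw [hord]; exact Nat.prime_two)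
  rw [hord] at hn
  refine ⟨n + 1, hn, ?_⟩
  have h3 := Equiv.Perm.sum_cycleType τ
  rw [hn, Multiset.sum_replicate] at h3
  have h4 : τ.support = Finset.univ := by
    ext w
    simp [h2 w]
  rw [h4, Finset.card_univ] at h3
  simpa using h3

/-- A fixed point free involution of a finite set whose size is divisible by a power of two has
a root. -/
lemma exists_root {Ω : Type*} [Fintype Ω] [DecidableEq Ω] (τ : Perm Ω) (h1 : τ * τ = 1)
    (h2 : ∀ w, τ w ≠ w) (hne : Nonempty Ω) (k : ℕ) (hd : 2 ^ (k + 1) ∣ Fintype.card Ω) :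
    ∃ ρ : Perm Ω, ρ ^ (2 ^ k) = τ := by
  obtain ⟨q, hq⟩ := hd
  have : NeZero (2 ^ (k + 1)) := ⟨by positivity⟩
  have hcard : Fintype.card (ZMod (2 ^ (k + 1)) × Fin q) = Fintype.card Ω := by
    rw [Fintype.card_prod, ZMod.card, Fintype.card_fin, hq]
  obtain ⟨e⟩ : Nonempty (ZMod (2 ^ (k + 1)) × Fin q ≃ Ω) := Fintype.card_eq.1 hcard
  let α : Perm (ZMod (2 ^ (k + 1)) × Fin q) := Equiv.prodCongr (Equiv.addRight 1) (Equiv.refl _)
  have hα : ∀ (n : ℕ) x, (α ^ n) x = (x.1 + n, x.2) := by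
    intro n
    induction n with
    | zero => intro x; simp
    | succ n ih =>
      intro x
      rw [pow_succ' α n, Perm.mul_apply, ih]
      simp only [α, Equiv.prodCongr_apply, Prod.map, Equiv.coe_addRight, Equiv.refl_apply]
      push_cast
      rw [add_assoc]
  let τ' : Perm Ω := e.permCongr (α ^ (2 ^ k))
  have hα2 : ((2 ^ k : ℕ) : ZMod (2 ^ (k + 1))) + ((2 ^ k : ℕ) : ZMod (2 ^ (k + 1))) = 0 := by
    rw [← Nat.cast_add, ← two_mul, ← pow_succ']
    exact ZMod.natCast_self _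
  have hα3 : ((2 ^ k : ℕ) : ZMod (2 ^ (k + 1))) ≠ 0 := by
    intro h
    rw [ZMod.natCast_eq_zero_iff] at h
    have := Nat.le_of_dvd (by positivity) h
    rw [pow_succ] at this
    have : 0 < 2 ^ k := by positivity
    omega
  have t1 : τ' * τ' = 1 := by
    ext w
    simp only [τ', Perm.mul_apply, Equiv.permCongr_apply, Equiv.symm_apply_apply, Perm.one_apply]
    rw [hα, hα]
    simp only
    rw [add_assoc, hα2, add_zero]
    simp
  have t2 : ∀ w, τ' w ≠ w := by
    intro w hw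
    simp only [τ', Equiv.permCongr_apply] at hw
    rw [hα, ← Equiv.eq_symm_apply] at hw
    have h3 := congrArg Prod.fst hw
    simp only at h3
    exact hα3 (by simpa using h3)
  obtain ⟨n, hn, hn2⟩ := cycleType_invol τ h1 h2 hne
  obtain ⟨m, hm, hm2⟩ := cycleType_invol τ' t1 t2 hne
  have hmn : m = n := by omega
  have hconj : IsConj τ' τ := by
    rw [Equiv.Perm.isConj_iff_cycleType_eq, hn, hm, hmn]
  obtain ⟨π, hπ⟩ := isConj_iff.1 hconj
  refine ⟨π * e.permCongr α * π⁻¹, ?_⟩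
  rw [← hπ, conj_pow]
  congr 2
  have h5 : ∀ n : ℕ, (e.permCongr α) ^ n = e.permCongr (α ^ n) := by
    intro n
    induction n with
    | zero =>
      ext w
      simp
    | succ n ih =>
      ext w
      rw [pow_succ, Perm.mul_apply, ih]
      simp only [Equiv.permCongr_apply, Equiv.symm_apply_apply]
      rw [pow_succ α n, Perm.mul_apply]
  exact h5 _

/-- Toggling the bits of S. -/
def tog {K : ℕ} (S : Finset (Fin K)) (v : Fin K → Bool) : Fin K → Bool :=
  fun j => if j ∈ S then !(v j) else v j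

lemma exists_rho (K k : ℕ) (B S : Finset (Fin K)) (hSB : S ⊆ B) (hS : S.Nonempty)
    (hB : k + 1 ≤ B.card) :
    ∃ ρ : Perm (Fin K → Bool), (∀ v j, j ∉ B → ρ v j = v j) ∧ ∀ v, (ρ ^ (2 ^ k)) v = tog S v := by
  classical
  let Ω := {j : Fin K // j ∈ B} → Bool
  have tt : Function.Involutive (fun (v : Ω) (j : {j : Fin K // j ∈ B}) =>
      if (j : Fin K) ∈ S then !(v j) else v j) := by
    intro v
    funext j
    by_cases hj : (j : Fin K) ∈ S <;> simp [hj]
  let τ : Perm Ω := tt.toPerm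
  have h1 : τ * τ = 1 := by
    ext v
    exact congrFun (tt v) _
  have h2 : ∀ w, τ w ≠ w := by
    intro w hw
    obtain ⟨s, hs⟩ := hS
    have h3 := congrFun hw ⟨s, hSB hs⟩
    have h4 : τ w ⟨s, hSB hs⟩ = !(w ⟨s, hSB hs⟩) := by
      show (if s ∈ S then !(w ⟨s, hSB hs⟩) else w ⟨s, hSB hs⟩) = _
      rw [if_pos hs]
    rw [h4] at h3
    simp at h3
  have hcard : Fintype.card Ω = 2 ^ B.card := by
    simp [Ω]
  obtain ⟨ρ0, hρ0⟩ := exists_root τ h1 h2 ⟨fun _ => false⟩ k (by
    rw [hcard]; exact pow_dvd_pow 2 hB)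
  let e := Equiv.piEquivPiSubtypeProd (fun j : Fin K => j ∈ B) (fun _ => Bool)
  let ρ : Perm (Fin K → Bool) := e.trans ((Equiv.prodCongr ρ0 (Equiv.refl _)).trans e.symm)
  have hρ : ∀ (n : ℕ) v, (ρ ^ n) v = e.symm ((ρ0 ^ n) (e v).1, (e v).2) := by
    intro n
    induction n with
    | zero =>
      intro v
      simp only [pow_zero, Perm.one_apply]
      exact (e.symm_apply_apply v).symm
    | succ n ih =>
      intro v
      rw [pow_succ', Perm.mul_apply, ih, pow_succ', Perm.mul_apply]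
      show e.symm _ = _
      rw [Equiv.apply_symm_apply]
      rfl
  refine ⟨ρ, ?_, ?_⟩
  · intro v j hj
    have h3 := hρ 1 v
    rw [pow_one] at h3
    rw [h3]
    simp [e, Equiv.piEquivPiSubtypeProd, hj]
  · intro v
    rw [hρ, hρ0]
    funext j
    by_cases hj : j ∈ B
    · simp [e, Equiv.piEquivPiSubtypeProd, hj, tog, τ, Function.Involutive.toPerm]
    · have hjS : j ∉ S := fun h => hj (hSB h)
      simp [e, Equiv.piEquivPiSubtypeProd, hj, tog, hjS]

end Pool.Agent.H96au
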