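import Pool.Agent.H96au.Mark
import Pool.Agent.H96au.Root

open Classical

namespace Pool.Agent.H96au

/-- The places where the involution acts: a letter b between two letters a with the choices
0 on the left and 1 on the right. -/
def Sp (y c : ℤ → Bool) (i : ℤ) : Prop :=
  y i = true ∧ y (i - 1) = false ∧ c (i - 1) = false ∧ y (i + 1) = false ∧ c (i + 1) = true

/-- A local rule changing the choices. -/
structure Loc where
  G : (ℤ → Bool) → (ℤ → Bool) → ℤ → Bool
  R : ℕ
  shift : ∀ (y c : ℤ → Bool) (j i : ℤ),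
    G (fun n => y (n + j)) (fun n => c (n + j)) i = G y c (i + j)
  near : ∀ y ∈ X, ∀ (c : ℤ → Bool) (i : ℤ), (∀ s, Sp y c s → (R : ℤ) < |s - i|) → G y c i = c i
  loc : ∀ y ∈ X, ∀ y' ∈ X, ∀ (c c' : ℤ → Bool) (i : ℤ),
    (∀ j : ℤ, |j - i| ≤ (R : ℤ) → y j = y' j ∧ c j = c' j) → G y c i = G y' c' i

lemma Sp_shift (y c : ℤ → Bool) (j i : ℤ) :
    Sp (fun n => y (n + j)) (fun n => c (n + j)) i ↔ Sp y c (i + j) := by
  simp only [Sp, show i - 1 + j = i + j - 1 by ring, show i + 1 + j = i + j + 1 by ring]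

lemma Sp_local (y c y' c' : ℤ → Bool) (i : ℤ)
    (h : ∀ j : ℤ, |j - i| ≤ 1 → y j = y' j ∧ c j = c' j) : Sp y c i ↔ Sp y' c' i := by
  have h0 := h i (by simp)
  have h1 := h (i - 1) (by rw [abs_le]; omega)
  have h2 := h (i + 1) (by rw [abs_le]; omega)
  simp only [Sp, h0.1, h1.1, h1.2, h2.1, h2.2]

/-- The involution. -/
noncomputable def LF : Loc where
  G := fun y c i => if Sp y c i then !(c i) else c i
  R := 1
  shift := by
    intro y c j i
    simp only [Sp_shift]
  near := by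
    intro y _ c i h
    have h1 : ¬ Sp y c i := fun h2 => by
      have := h i h2
      simp at this
    simp only [h1, if_false]
  loc := by
    intro y _ y' _ c c' i h
    have h1 := Sp_local y c y' c' i (by simpa using h)
    have h2 := h i (by simp)
    simp only [h1, h2.2]

section Root

variable (K k : ℕ)

/-- The property of the root. -/
def Pr (B S : Finset (Fin K)) (ρ : Equiv.Perm (Fin K → Bool)) : Prop :=
  S.Nonempty ∧ (∀ v j, j ∉ B → ρ v j = v j) ∧ ∀ v, (ρ ^ (2 ^ k)) v = tog S v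

/-- A chosen root. -/
noncomputable def rho (B S : Finset (Fin K)) : Equiv.Perm (Fin K → Bool) :=
  if h : ∃ ρ, Pr K k B S ρ then h.choose else 1

lemma rho_outside (B S : Finset (Fin K)) (v : Fin K → Bool) (j : Fin K) (hj : j ∉ B) :
    rho K k B S v j = v j := by
  unfold rho
  split_ifs with h
  · exact h.choose_spec.2.1 v j hj
  · rfl

lemma rho_empty (B : Finset (Fin K)) : rho K k B ∅ = 1 := by
  unfold rho
  rw [dif_neg]
  rintro ⟨ρ, h, _⟩
  exact Finset.not_nonempty_empty h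

lemma rho_pow (B S : Finset (Fin K)) (hSB : S ⊆ B) (hB : k + 1 ≤ B.card) (v : Fin K → Bool) :
    ((rho K k B S) ^ (2 ^ k)) v = tog S v := by
  rcases S.eq_empty_or_nonempty with rfl | hS
  · rw [rho_empty, one_pow]
    funext j
    simp [tog]
  · obtain ⟨ρ, h1, h2⟩ := exists_rho K k B S hSB hS hB
    have h : ∃ ρ, Pr K k B S ρ := ⟨ρ, hS, h1, h2⟩
    unfold rho
    rw [dif_pos h]
    exact h.choose_spec.2.2 v

end Root

section G

variable {N : ℕ} (M : Rule N) (K k : ℕ)

/-- Distance to the marker on the left. -/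
noncomputable def loff (y : ℤ → Bool) (i : ℤ) : ℕ := sInf {t : ℕ | M.mrk y (i - (t : ℤ))}

/-- The position m + j belongs to the interval of the marker m. -/
def inI (y : ℤ → Bool) (m : ℤ) (j : ℕ) : Prop :=
  ∀ t : ℕ, 0 < t → t ≤ j → ¬ M.mrk y (m + (t : ℤ))

noncomputable def Bs (y : ℤ → Bool) (m : ℤ) : Finset (Fin K) :=
  Finset.univ.filter (fun j : Fin K => y (m + ((j : ℕ) : ℤ)) = true ∧ inI M y m j)

noncomputable def Ss (y c : ℤ → Bool) (m : ℤ) : Finset (Fin K) :=
  Finset.univ.filter (fun j : Fin K => inI M y m j ∧ Sp y c (m + ((j : ℕ) : ℤ)))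

noncomputable def vec (y c : ℤ → Bool) (m : ℤ) : Fin K → Bool :=
  fun j => if j ∈ Bs M K y m then c (m + ((j : ℕ) : ℤ)) else false

def ext (v : Fin K → Bool) (l : ℕ) (d : Bool) : Bool := if h : l < K then v ⟨l, h⟩ else d

noncomputable def GG (y c : ℤ → Bool) (i : ℤ) : Bool :=
  if y i = true then
    ext K (rho K k (Bs M K y (i - (loff M y i : ℤ))) (Ss M K y c (i - (loff M y i : ℤ)))
      (vec M K y c (i - (loff M y i : ℤ)))) (loff M y i) (c i)
  else c i

lemma loff_shift (y : ℤ → Bool) (j i : ℤ) :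
    loff M (fun n => y (n + j)) i = loff M y (i + j) := by
  unfold loff
  congr 1
  ext t
  simp only [Set.mem_ofPred_eq, M.shift]
  rw [show i - (t : ℤ) + j = i + j - t by ring]

lemma inI_shift (y : ℤ → Bool) (j m : ℤ) (t : ℕ) :
    inI M (fun n => y (n + j)) m t ↔ inI M y (m + j) t := by
  unfold inI
  refine forall_congr' fun s => ?_
  rw [M.shift, show m + (s : ℤ) + j = m + j + s by ring]

lemma Bs_shift (y : ℤ → Bool) (j m : ℤ) :
    Bs M K (fun n => y (n + j)) m = Bs M K y (m + j) := by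
  unfold Bs
  congr 1
  funext t
  rw [inI_shift]
  beta_reduce
  rw [show m + ((t : ℕ) : ℤ) + j = m + j + ((t : ℕ) : ℤ) by ring]

lemma Ss_shift (y c : ℤ → Bool) (j m : ℤ) :
    Ss M K (fun n => y (n + j)) (fun n => c (n + j)) m = Ss M K y c (m + j) := by
  unfold Ss
  congr 1
  funext t
  rw [inI_shift, Sp_shift, show m + ((t : ℕ) : ℤ) + j = m + j + ((t : ℕ) : ℤ) by ring]

lemma vec_shift (y c : ℤ → Bool) (j m : ℤ) :
    vec M K (fun n => y (n + j)) (fun n => c (n + j)) m = vec M K y c (m + j) := by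
  funext t
  unfold vec
  rw [Bs_shift]
  beta_reduce
  rw [show m + ((t : ℕ) : ℤ) + j = m + j + ((t : ℕ) : ℤ) by ring]

lemma GG_shift (y c : ℤ → Bool) (j i : ℤ) :
    GG M K k (fun n => y (n + j)) (fun n => c (n + j)) i = GG M K k y c (i + j) := by
  unfold GG
  rw [loff_shift, Bs_shift, Ss_shift, vec_shift,
    show i - (loff M y (i + j) : ℤ) + j = i + j - (loff M y (i + j) : ℤ) by ring]

variable {y : ℤ → Bool} (hy : y ∈ X)

include hy in
lemma loff_spec (i : ℤ) : M.mrk y (i - (loff M y i : ℤ)) ∧ loff M y i < 2 * N := by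
  obtain ⟨m, hm, hm2⟩ := M.dense y hy (i - N + 1)
  rw [abs_lt] at hm
  obtain ⟨t, ht⟩ := Int.eq_ofNat_of_zero_le (show (0 : ℤ) ≤ i - m by omega)
  have hmem : t ∈ {t : ℕ | M.mrk y (i - (t : ℤ))} := by
    show M.mrk y (i - (t : ℤ))
    rwa [← ht, sub_sub_cancel]
  refine ⟨Nat.sInf_mem ⟨t, hmem⟩, ?_⟩
  have : loff M y i ≤ t := Nat.sInf_le hmem
  omega

lemma loff_min (i : ℤ) (t : ℕ) (ht : t < loff M y i) : ¬ M.mrk y (i - (t : ℤ)) := by
  intro h
  have : loff M y i ≤ t := Nat.sInf_le h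
  omega

lemma inI_loff (i : ℤ) : inI M y (i - (loff M y i : ℤ)) (loff M y i) := by
  intro t ht0 ht h
  have h1 := loff_min M (y := y) i (loff M y i - t) (by omega)
  apply h1
  rwa [show i - ((loff M y i - t : ℕ) : ℤ) = i - (loff M y i : ℤ) + t by
    push_cast [Nat.cast_sub ht]; ring]

lemma loff_of_inI (m : ℤ) (j : ℕ) (hm : M.mrk y m) (hj : inI M y m j) :
    loff M y (m + (j : ℤ)) = j := by
  have hmem : j ∈ {t : ℕ | M.mrk y (m + (j : ℤ) - (t : ℤ))} := by
    show M.mrk y (m + (j : ℤ) - (j : ℤ))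
    rwa [add_sub_cancel_right]
  have h1 : loff M y (m + (j : ℤ)) ≤ j := Nat.sInf_le hmem
  by_contra hne
  have h2 : M.mrk y (m + (j : ℤ) - (loff M y (m + (j : ℤ)) : ℤ)) := Nat.sInf_mem ⟨j, hmem⟩
  refine hj (j - loff M y (m + (j : ℤ))) (by omega) (by omega) ?_
  rwa [show m + ((j - loff M y (m + (j : ℤ)) : ℕ) : ℤ)
    = m + (j : ℤ) - (loff M y (m + (j : ℤ)) : ℤ) by push_cast [Nat.cast_sub h1]; ring]

lemma GG_false (c : ℤ → Bool) (i : ℤ) (h : y i = false) : GG M K k y c i = c i := by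
  unfold GG
  rw [if_neg (by rw [h]; simp)]

lemma Sp_GG (c : ℤ → Bool) (i : ℤ) : Sp y (GG M K k y c) i ↔ Sp y c i := by
  unfold Sp
  refine and_congr_right fun _ => ?_
  constructor
  · rintro ⟨h1, h2, h3, h4⟩
    rw [GG_false M K k c _ h1] at h2
    rw [GG_false M K k c _ h3] at h4
    exact ⟨h1, h2, h3, h4⟩
  · rintro ⟨h1, h2, h3, h4⟩
    rw [GG_false M K k c _ h1, GG_false M K k c _ h3]
    exact ⟨h1, h2, h3, h4⟩

lemma Ss_GG (c : ℤ → Bool) (m : ℤ) : Ss M K y (GG M K k y c) m = Ss M K y c m := by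
  unfold Ss
  congr 1
  funext t
  rw [Sp_GG]

lemma GG_mem (c : ℤ → Bool) (m : ℤ) (hm : M.mrk y m) (j : Fin K) (hj : j ∈ Bs M K y m) :
    GG M K k y c (m + ((j : ℕ) : ℤ)) = rho K k (Bs M K y m) (Ss M K y c m) (vec M K y c m) j := by
  have h := (Finset.mem_filter.1 hj).2
  have hl := loff_of_inI M m j hm h.2
  unfold GG
  rw [if_pos h.1, hl, add_sub_cancel_right]
  simp only [ext, j.2, dif_pos]

lemma vec_GG (c : ℤ → Bool) (m : ℤ) (hm : M.mrk y m) :
    vec M K y (GG M K k y c) m = rho K k (Bs M K y m) (Ss M K y c m) (vec M K y c m) := by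
  funext j
  by_cases hj : j ∈ Bs M K y m
  · rw [← GG_mem M K k c m hm j hj]
    simp only [vec, hj, if_true]
  · rw [rho_outside _ _ _ _ _ _ hj]
    simp only [vec, hj, if_false]

lemma iter_GG (c : ℤ → Bool) (m : ℤ) (hm : M.mrk y m) (n : ℕ) :
    Ss M K y ((GG M K k y)^[n] c) m = Ss M K y c m ∧
    vec M K y ((GG M K k y)^[n] c) m =
      ((rho K k (Bs M K y m) (Ss M K y c m)) ^ n) (vec M K y c m) := by
  induction n with
  | zero => simp
  | succ n ih =>
    rw [Function.iterate_succ_apply']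
    refine ⟨by rw [Ss_GG, ih.1], ?_⟩
    rw [vec_GG M K k _ m hm, ih.1, ih.2, pow_succ', Equiv.Perm.mul_apply]

lemma iter_GG_false (c : ℤ → Bool) (i : ℤ) (h : y i = false) (n : ℕ) :
    (GG M K k y)^[n] c i = c i := by
  induction n with
  | zero => rfl
  | succ n ih => rw [Function.iterate_succ_apply', GG_false M K k _ i h, ih]

include hy in
lemma card_Bs (hN : N = 8 * (k + 1)) (m : ℤ) (hm : M.mrk y m) :
    k + 1 ≤ (Bs M (2 * N) y m).card := by
  have h : ∀ q : Fin (k + 1), ∃ t : ℕ, t < 8 ∧ y (m + 8 * ((q : ℕ) : ℤ) + t) = true :=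
    fun q => window hy _ true
  choose t ht1 ht2 using h
  have hlt : ∀ q : Fin (k + 1), 8 * (q : ℕ) + t q < N := by
    intro q
    have := q.2
    have := ht1 q
    omega
  rw [← Fintype.card_fin (k + 1), ← Finset.card_univ]
  refine Finset.card_le_card_of_injOn (fun q => ⟨8 * (q : ℕ) + t q, by have := hlt q; omega⟩)
    (fun q _ => ?_) (fun q _ q' _ hqq => ?_)
  · simp only [Bs, Finset.coe_filter, Finset.mem_univ, true_and, Set.mem_ofPred_eq]
    refine ⟨?_, fun s hs0 hs h => ?_⟩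
    · rw [← ht2 q]
      congr 1
      push_cast
      ring
    · have h2 := M.sep y hy _ _ h hm (by
        rw [add_sub_cancel_left, abs_of_nonneg (by omega)]
        have := hlt q
        omega)
      omega
  · have h1 := congrArg Fin.val hqq
    simp only at h1
    have := ht1 q
    have := ht1 q'
    exact Fin.ext (by omega)

include hy in
lemma GG_pow (hN : N = 8 * (k + 1)) (c : ℤ → Bool) (i : ℤ) :
    (GG M (2 * N) k y)^[2 ^ k] c i = if Sp y c i then !(c i) else c i := by
  rcases Bool.eq_false_or_eq_true (y i) with h | h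
  · obtain ⟨hm, hl⟩ := loff_spec M hy i
    set m := i - (loff M y i : ℤ) with hmdef
    have him : m + ((loff M y i : ℕ) : ℤ) = i := by rw [hmdef]; ring
    have hj : (⟨loff M y i, hl⟩ : Fin (2 * N)) ∈ Bs M (2 * N) y m := by
      simp only [Bs, Finset.mem_filter, Finset.mem_univ, true_and]
      exact ⟨by rw [him]; exact h, inI_loff M i⟩
    have hv : ∀ c' : ℤ → Bool, vec M (2 * N) y c' m ⟨loff M y i, hl⟩ = c' i := by
      intro c'
      simp only [vec, hj, if_true, him]
    obtain ⟨h1, h2⟩ := iter_GG M (2 * N) k c m hm (2 ^ k)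
    rw [← hv ((GG M (2 * N) k y)^[2 ^ k] c), h2, rho_pow]
    · simp only [tog, hv]
      have h3 : (⟨loff M y i, hl⟩ : Fin (2 * N)) ∈ Ss M (2 * N) y c m ↔ Sp y c i := by
        simp only [Ss, Finset.mem_filter, Finset.mem_univ, true_and, him]
        exact ⟨fun h => h.2, fun h => ⟨inI_loff M i, h⟩⟩
      simp only [h3]
    · intro j hj
      simp only [Ss, Bs, Finset.mem_filter, Finset.mem_univ, true_and] at hj ⊢
      exact ⟨hj.2.1, hj.1⟩
    · exact card_Bs M k hy hN m hm
  · rw [iter_GG_false M (2 * N) k c i h]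
    have h3 : ¬ Sp y c i := fun h4 => by
      rw [h4.1] at h
      exact absurd h (by simp)
    rw [if_neg h3]

include hy in
lemma GG_near (c : ℤ → Bool) (i : ℤ) (R : ℕ) (hR : 2 * N ≤ R)
    (h : ∀ s, Sp y c s → (R : ℤ) < |s - i|) : GG M (2 * N) k y c i = c i := by
  unfold GG
  split_ifs with hyi
  · obtain ⟨hm, hl⟩ := loff_spec M hy i
    set m := i - (loff M y i : ℤ) with hmdef
    have him : m + ((loff M y i : ℕ) : ℤ) = i := by rw [hmdef]; ring
    have hS : Ss M (2 * N) y c m = ∅ := by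
      rw [Finset.eq_empty_iff_forall_notMem]
      intro j hj
      simp only [Ss, Finset.mem_filter, Finset.mem_univ, true_and] at hj
      have h1 := h _ hj.2
      have h2 := j.2
      have h3 : |m + ((j : ℕ) : ℤ) - i| ≤ 2 * N := by
        rw [abs_le]
        constructor <;> omega
      omega
    rw [hS, rho_empty]
    simp only [ext, hl, dif_pos, Equiv.Perm.one_apply]
    have hj : (⟨loff M y i, hl⟩ : Fin (2 * N)) ∈ Bs M (2 * N) y m := by
      simp only [Bs, Finset.mem_filter, Finset.mem_univ, true_and]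
      exact ⟨by rw [him]; exact hyi, inI_loff M i⟩
    simp only [vec, hj, if_true, him]
  · rfl

include hy in
lemma GG_loc {y' : ℤ → Bool} (hy' : y' ∈ X) (c c' : ℤ → Bool) (i : ℤ)
    (h : ∀ j : ℤ, |j - i| ≤ ((M.R + 4 * N + 1 : ℕ) : ℤ) → y j = y' j ∧ c j = c' j) :
    GG M (2 * N) k y c i = GG M (2 * N) k y' c' i := by
  have hmrk : ∀ n : ℤ, |n - i| ≤ 4 * N → (M.mrk y n ↔ M.mrk y' n) := by
    intro n hn
    apply M.loc
    intro j hj
    apply (h j _).1
    have := abs_add_le (j - n) (n - i)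
    rw [sub_add_sub_cancel] at this
    push_cast
    omega
  obtain ⟨hm, hl⟩ := loff_spec M hy i
  obtain ⟨hm', hl'⟩ := loff_spec M hy' i
  have hoff : loff M y i = loff M y' i := by
    apply le_antisymm
    · apply Nat.sInf_le
      show M.mrk y _
      rw [hmrk _ (by rw [abs_le]; constructor <;> omega)]
      exact hm'
    · apply Nat.sInf_le
      show M.mrk y' _
      rw [← hmrk _ (by rw [abs_le]; constructor <;> omega)]
      exact hm
  have hin : ∀ t : Fin (2 * N), inI M y (i - (loff M y i : ℤ)) t ↔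
      inI M y' (i - (loff M y i : ℤ)) t := by
    intro t
    unfold inI
    refine forall_congr' fun s => forall_congr' fun _ => forall_congr' fun hs => ?_
    have := t.2
    rw [hmrk _ (by rw [abs_le]; constructor <;> omega)]
  have hval : ∀ t : Fin (2 * N), y (i - (loff M y i : ℤ) + ((t : ℕ) : ℤ)) =
      y' (i - (loff M y i : ℤ) + ((t : ℕ) : ℤ)) ∧
      c (i - (loff M y i : ℤ) + ((t : ℕ) : ℤ)) = c' (i - (loff M y i : ℤ) + ((t : ℕ) : ℤ)) := by
    intro t
    have := t.2
    exact h _ (by rw [abs_le]; push_cast; constructor <;> omega)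
  have hB : Bs M (2 * N) y (i - (loff M y i : ℤ)) = Bs M (2 * N) y' (i - (loff M y i : ℤ)) := by
    unfold Bs
    congr 1
    funext t
    rw [hin t, (hval t).1]
  have hS : Ss M (2 * N) y c (i - (loff M y i : ℤ)) =
      Ss M (2 * N) y' c' (i - (loff M y i : ℤ)) := by
    unfold Ss
    congr 1
    funext t
    rw [hin t, Sp_local y c y' c' _ (fun j hj => h j ?_)]
    have := t.2
    rw [abs_le] at hj ⊢
    push_cast
    constructor <;> omega
  have hv : vec M (2 * N) y c (i - (loff M y i : ℤ)) =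
      vec M (2 * N) y' c' (i - (loff M y i : ℤ)) := by
    funext t
    unfold vec
    rw [hB, (hval t).2]
  have h0 := h i (by rw [sub_self, abs_zero]; positivity)
  unfold GG
  rw [h0.1, h0.2, hB, hS, hv, hoff]

/-- The root as a local rule. -/
noncomputable def LG (M : Rule N) (k : ℕ) : Loc where
  G := GG M (2 * N) k
  R := M.R + 4 * N + 1
  shift := fun y c j i => GG_shift M (2 * N) k y c j i
  near := fun y hy c i h => GG_near M k hy c i _ (by omega) h
  loc := fun y hy y' hy' c c' i h => GG_loc M k hy hy' c c' i h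

end G

end Pool.Agent.H96au
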