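import Pool.Agent.H96au.Gmap

open Classical

namespace Pool.Agent.H96au

/-- The word of a letter b between abaa and aaba at the position n. -/
def Pat (x : ℤ → Bool) (n : ℤ) : Prop :=
  (x (n - 4) = false ∧ x (n - 3) = true ∧ x (n - 2) = false ∧ x (n - 1) = false) ∧
  (x (n + 4) = false ∧ x (n + 5) = false ∧ x (n + 6) = true ∧ x (n + 7) = false) ∧
  ((x n = false ∧ x (n + 1) = true ∧ x (n + 2) = false ∧ x (n + 3) = true) ∨
   (x n = true ∧ x (n + 1) = false ∧ x (n + 2) = true ∧ x (n + 3) = false))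

lemma Pat_local {x x' : ℤ → Bool} {n : ℤ} (h : ∀ j : ℤ, |j - n| ≤ 7 → x j = x' j)
    (hp : Pat x n) : Pat x' n := by
  have e0 := h n (by simp)
  have f1 := h (n - 4) (by rw [abs_le]; omega)
  have f2 := h (n - 3) (by rw [abs_le]; omega)
  have f3 := h (n - 2) (by rw [abs_le]; omega)
  have f4 := h (n - 1) (by rw [abs_le]; omega)
  have f5 := h (n + 1) (by rw [abs_le]; omega)
  have f6 := h (n + 2) (by rw [abs_le]; omega)
  have f7 := h (n + 3) (by rw [abs_le]; omega)
  have f8 := h (n + 4) (by rw [abs_le]; omega)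
  have f9 := h (n + 5) (by rw [abs_le]; omega)
  have f10 := h (n + 6) (by rw [abs_le]; omega)
  have f11 := h (n + 7) (by rw [abs_le]; omega)
  unfold Pat at hp ⊢
  rwa [e0, f1, f2, f3, f4, f5, f6, f7, f8, f9, f10, f11] at hp

lemma Pat_of_Sp {x : ℤ → Bool} {r : ℤ} {y c : ℤ → Bool} (h : Dec x r y c) {i : ℤ}
    (hs : Sp y c i) : Pat x (r + 4 * i) := by
  obtain ⟨s1, s2, s3, s4, s5⟩ := hs
  have h0 := h i
  have h1 := h (i - 1)
  have h2 := h (i + 1)
  rw [show r + 4 * (i - 1) = r + 4 * i - 4 by ring, show r + 4 * i - 4 + 1 = r + 4 * i - 3 by ring,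
    show r + 4 * i - 4 + 2 = r + 4 * i - 2 by ring, show r + 4 * i - 4 + 3 = r + 4 * i - 1 by ring,
    s2, s3] at h1
  rw [show r + 4 * (i + 1) = r + 4 * i + 4 by ring, show r + 4 * i + 4 + 1 = r + 4 * i + 5 by ring,
    show r + 4 * i + 4 + 2 = r + 4 * i + 6 by ring, show r + 4 * i + 4 + 3 = r + 4 * i + 7 by ring,
    s4, s5] at h2
  rw [s1] at h0
  refine ⟨?_, ?_, ?_⟩
  · simpa using h1
  · simpa using h2
  · cases hc : c i
    · left; simpa [hc] using h0
    · right; simpa [hc] using h0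

lemma Pat_align {x : ℤ → Bool} {n : ℤ} (hp : Pat x n) {r : ℤ} {y c : ℤ → Bool}
    (h : Dec x r y c) : (n - r) % 4 = 0 := by
  by_contra hne
  obtain ⟨⟨a1, a2, a3, a4⟩, ⟨b1, b2, b3, b4⟩, hc⟩ := hp
  have h0 := h ((n - r) / 4)
  have h1 := h ((n - r) / 4 + 1)
  obtain h4 | h4 | h4 : (n - r) % 4 = 1 ∨ (n - r) % 4 = 2 ∨ (n - r) % 4 = 3 := by omega
  · rw [show r + 4 * ((n - r) / 4) = n - 1 by omega, show n - 1 + 1 = n by ring,
      show n - 1 + 2 = n + 1 by ring, show n - 1 + 3 = n + 2 by ring] at h0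
    rw [show r + 4 * ((n - r) / 4 + 1) = n + 3 by omega, show n + 3 + 1 = n + 4 by ring,
      show n + 3 + 2 = n + 5 by ring, show n + 3 + 3 = n + 6 by ring] at h1
    obtain ⟨g1, g2, g3, g4⟩ := h0
    obtain ⟨k1, k2, k3, k4⟩ := h1
    generalize y ((n - r) / 4) = y0 at *
    generalize c ((n - r) / 4) = c0 at *
    generalize y ((n - r) / 4 + 1) = y1 at *
    generalize c ((n - r) / 4 + 1) = c1 at *
    rcases hc with ⟨d1, d2, d3, d4⟩ | ⟨d1, d2, d3, d4⟩ <;>
      simp only [a4, b1, b2, b3, d1, d2, d3, d4] at g1 g2 g3 g4 k1 k2 k3 k4 <;>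
      cases y0 <;> cases c0 <;> cases y1 <;> cases c1 <;> simp at g1 g2 g3 g4 k1 k2 k3 k4
  · rw [show r + 4 * ((n - r) / 4) = n - 2 by omega, show n - 2 + 1 = n - 1 by ring,
      show n - 2 + 2 = n by ring, show n - 2 + 3 = n + 1 by ring] at h0
    rw [show r + 4 * ((n - r) / 4 + 1) = n + 2 by omega, show n + 2 + 1 = n + 3 by ring,
      show n + 2 + 2 = n + 4 by ring, show n + 2 + 3 = n + 5 by ring] at h1
    obtain ⟨g1, g2, g3, g4⟩ := h0
    obtain ⟨k1, k2, k3, k4⟩ := h1
    generalize y ((n - r) / 4) = y0 at *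
    generalize c ((n - r) / 4) = c0 at *
    generalize y ((n - r) / 4 + 1) = y1 at *
    generalize c ((n - r) / 4 + 1) = c1 at *
    rcases hc with ⟨d1, d2, d3, d4⟩ | ⟨d1, d2, d3, d4⟩ <;>
      simp only [a3, a4, b1, b2, d1, d2, d3, d4] at g1 g2 g3 g4 k1 k2 k3 k4 <;>
      cases y0 <;> cases c0 <;> cases y1 <;> cases c1 <;> simp at g1 g2 g3 g4 k1 k2 k3 k4
  · rw [show r + 4 * ((n - r) / 4) = n - 3 by omega, show n - 3 + 1 = n - 2 by ring,
      show n - 3 + 2 = n - 1 by ring, show n - 3 + 3 = n by ring] at h0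
    rw [show r + 4 * ((n - r) / 4 + 1) = n + 1 by omega, show n + 1 + 1 = n + 2 by ring,
      show n + 1 + 2 = n + 3 by ring, show n + 1 + 3 = n + 4 by ring] at h1
    obtain ⟨g1, g2, g3, g4⟩ := h0
    obtain ⟨k1, k2, k3, k4⟩ := h1
    generalize y ((n - r) / 4) = y0 at *
    generalize c ((n - r) / 4) = c0 at *
    generalize y ((n - r) / 4 + 1) = y1 at *
    generalize c ((n - r) / 4 + 1) = c1 at *
    rcases hc with ⟨d1, d2, d3, d4⟩ | ⟨d1, d2, d3, d4⟩ <;>
      simp only [a2, a3, a4, b1, d1, d2, d3, d4] at g1 g2 g3 g4 k1 k2 k3 k4 <;>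
      cases y0 <;> cases c0 <;> cases y1 <;> cases c1 <;> simp at g1 g2 g3 g4 k1 k2 k3 k4

lemma Dec.val {x : ℤ → Bool} {r : ℤ} {y c : ℤ → Bool} (h : Dec x r y c) (n : ℤ) :
    x n = Wf (y ((n - r) / 4)) (c ((n - r) / 4)) ((n - r) % 4) := by
  have h1 : x = rcp r y c := h.eq (dec_rcp r y c)
  conv_lhs => rw [h1]
  rfl

/-- The map of the subshift given by a local rule. -/
noncomputable def hatf (L : Loc) (x : ℤ → Bool) : ℤ → Bool :=
  if h : ∃ r y c, y ∈ X ∧ Dec x r y c then
    rcp h.choose h.choose_spec.choose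
      (L.G h.choose_spec.choose h.choose_spec.choose_spec.choose)
  else x

lemma hatf_exists (L : Loc) {x : ℤ → Bool} (hx : x ∈ X) :
    ∃ r y c, y ∈ X ∧ Dec x r y c ∧ Dec (hatf L x) r y (L.G y c) := by
  have h := exists_dec hx
  refine ⟨h.choose, h.choose_spec.choose, h.choose_spec.choose_spec.choose,
    h.choose_spec.choose_spec.choose_spec.1, h.choose_spec.choose_spec.choose_spec.2, ?_⟩
  unfold hatf
  rw [dif_pos h]
  exact dec_rcp _ _ _

lemma G_trivial (L : Loc) {y c : ℤ → Bool} (hy : y ∈ X) (h : ∀ s, ¬ Sp y c s) : L.G y c = c := by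
  funext i
  exact L.near y hy c i (fun s hs => absurd hs (h s))

lemma dec_hatf (L : Loc) {x : ℤ → Bool} {r : ℤ} {y c : ℤ → Bool} (h : Dec x r y c)
    (hy : y ∈ X) : Dec (hatf L x) r y (L.G y c) := by
  obtain ⟨r0, y0, c0, hy0, h0, h1⟩ := hatf_exists L (mem_of_dec h hy)
  by_cases h4 : (r0 - r) % 4 = 0
  · have e : r0 = r + 4 * ((r0 - r) / 4) := by omega
    have h2 := h.shift ((r0 - r) / 4)
    rw [← e] at h2
    obtain ⟨e1, e2⟩ := h0.unique h2
    have h3 := h1.shift (-((r0 - r) / 4))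
    rw [show r0 + 4 * -((r0 - r) / 4) = r by omega] at h3
    have e3 : (fun n => y0 (n + -((r0 - r) / 4))) = y := by
      funext n
      rw [e1]
      simp
    have e4 : (fun n => L.G y0 c0 (n + -((r0 - r) / 4))) = L.G y c := by
      funext n
      rw [e1, e2, L.shift]
      simp
    rw [e3, e4] at h3
    exact h3
  · have n1 : ∀ s, ¬ Sp y c s := by
      intro s hs
      have a1 := Pat_align (Pat_of_Sp h hs) h0
      omega
    have n2 : ∀ s, ¬ Sp y0 c0 s := by
      intro s hs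
      have a1 := Pat_align (Pat_of_Sp h0 hs) h
      omega
    rw [G_trivial L hy0 n2] at h1
    rw [G_trivial L hy n1, h1.eq h0]
    exact h

lemma hatf_mem (L : Loc) {x : ℤ → Bool} (hx : x ∈ X) : hatf L x ∈ X := by
  obtain ⟨r, y, c, hy, h⟩ := exists_dec hx
  exact mem_of_dec (dec_hatf L h hy) hy

lemma hatf_iter (L : Loc) {x : ℤ → Bool} {r : ℤ} {y c : ℤ → Bool} (h : Dec x r y c)
    (hy : y ∈ X) (n : ℕ) : Dec ((hatf L)^[n] x) r y ((L.G y)^[n] c) := by
  induction n with
  | zero => exact h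
  | succ n ih =>
    rw [Function.iterate_succ_apply', Function.iterate_succ_apply']
    exact dec_hatf L ih hy

lemma hatf_shift (L : Loc) {x : ℤ → Bool} (hx : x ∈ X) (j : ℤ) :
    hatf L (fun n => x (n + j)) = fun n => hatf L x (n + j) := by
  obtain ⟨r, y, c, hy, h⟩ := exists_dec hx
  have h1 := dec_hatf L (h.translate j) hy
  have h2 := (dec_hatf L h hy).translate j
  exact h1.eq h2

lemma hatf_far (L : Loc) {x : ℤ → Bool} (hx : x ∈ X) (n : ℤ)
    (hn : ∀ s, Pat x s → 4 * (L.R : ℤ) + 10 < |s - n|) : hatf L x n = x n := by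
  obtain ⟨r, y, c, hy, h⟩ := exists_dec hx
  rw [(dec_hatf L h hy).val n, h.val n, L.near y hy c]
  intro s hs
  have h1 := hn _ (Pat_of_Sp h hs)
  by_contra hcon
  push Not at hcon
  rw [abs_le] at hcon
  have h2 : |r + 4 * s - n| ≤ 4 * (L.R : ℤ) + 10 := by
    rw [abs_le]
    constructor <;> omega
  omega

lemma hatf_local (L : Loc) {x x' : ℤ → Bool} (hx : x ∈ X) (hx' : x' ∈ X) (n : ℤ)
    (hn : ∀ j : ℤ, |j - n| ≤ 4 * (L.R : ℤ) + 20 → x j = x' j) : hatf L x n = hatf L x' n := by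
  by_cases hp : ∃ s, Pat x s ∧ |s - n| ≤ 4 * (L.R : ℤ) + 10
  · obtain ⟨s, hs, hsn⟩ := hp
    have hs' : Pat x' s := Pat_local (fun j hj => hn j (by
      have := abs_add_le (j - s) (s - n)
      rw [sub_add_sub_cancel] at this
      omega)) hs
    obtain ⟨r, y, c, hy, h⟩ := exists_dec hx
    obtain ⟨r', y', c', hy', h'⟩ := exists_dec hx'
    have a1 := Pat_align hs h
    have a2 := Pat_align hs' h'
    have h2 := h'.shift ((r - r') / 4)
    have hy2 := shift_mem hy' ((r - r') / 4)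
    rw [show r' + 4 * ((r - r') / 4) = r by omega] at h2
    set y2 := fun n => y' (n + (r - r') / 4) with hy2def
    set c2 := fun n => c' (n + (r - r') / 4) with hc2def
    have hag : ∀ i : ℤ, |i - (n - r) / 4| ≤ (L.R : ℤ) → y i = y2 i ∧ c i = c2 i := by
      intro i hi
      rw [abs_le] at hi
      have e1 : x (r + 4 * i) = x' (r + 4 * i) := hn _ (by rw [abs_le]; constructor <;> omega)
      have e2 : x (r + 4 * i + 3) = x' (r + 4 * i + 3) :=
        hn _ (by rw [abs_le]; constructor <;> omega)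
      have e3 : x (r + 4 * i + 2) = x' (r + 4 * i + 2) :=
        hn _ (by rw [abs_le]; constructor <;> omega)
      rw [← h.yd_eq, ← h.cd_eq, ← h2.yd_eq, ← h2.cd_eq]
      simp only [yd, cd, e1, e2, e3, and_self]
    rw [(dec_hatf L h hy).val n, (dec_hatf L h2 hy2).val n,
      L.loc y hy y2 hy2 c c2 _ hag, (hag _ (by simp)).1]
  · push Not at hp
    have hp' : ∀ s, Pat x' s → 4 * (L.R : ℤ) + 10 < |s - n| := by
      intro s hs
      by_contra hcon
      push Not at hcon
      have hs' : Pat x s := Pat_local (fun j hj => (hn j (by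
        have := abs_add_le (j - s) (s - n)
        rw [sub_add_sub_cancel] at this
        omega)).symm) hs
      exact absurd hcon (not_le.2 (hp s hs'))
    rw [hatf_far L hx n hp, hatf_far L hx' n hp']
    exact hn n (by rw [sub_self, abs_zero]; positivity)

/-- The map of the subshift. -/
noncomputable def hat (L : Loc) (x : X) : X := ⟨hatf L x.1, hatf_mem L x.2⟩

lemma continuous_of_local (φ : X → Bool) (F : Finset ℤ)
    (h : ∀ x x' : X, (∀ i ∈ F, x.1 i = x'.1 i) → φ x = φ x') : Continuous φ := by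
  rw [continuous_iff_continuousAt]
  intro x
  have h1 : {x' : X | ∀ i ∈ F, x'.1 i = x.1 i} ∈ nhds x := by
    have h2 : {x' : X | ∀ i ∈ F, x'.1 i = x.1 i} = ⋂ i ∈ F, {x' : X | x'.1 i = x.1 i} := by
      ext x'
      simp
    rw [h2]
    refine (Finset.iInter_mem_sets F).2 fun i _ => ?_
    have hc : Continuous (fun x' : X => x'.1 i) :=
      (continuous_apply i).comp continuous_subtype_val
    have h3 : IsOpen {x' : X | x'.1 i = x.1 i} :=
      (isOpen_discrete ({x.1 i} : Set Bool)).preimage hc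
    exact h3.mem_nhds rfl
  have h4 : φ =ᶠ[nhds x] fun _ => φ x :=
    Filter.mem_of_superset h1 (fun x' hx' => h x' x hx')
  exact (continuousAt_const.congr h4.symm)

lemma continuous_hat (L : Loc) : Continuous (hat L) := by
  refine Continuous.subtype_mk (continuous_pi fun n => ?_) _
  refine continuous_of_local _ (Finset.Icc (n - (4 * (L.R : ℤ) + 20)) (n + (4 * (L.R : ℤ) + 20)))
    (fun x x' h => hatf_local L x.2 x'.2 n (fun j hj => h j ?_))
  rw [Finset.mem_Icc]
  rw [abs_le] at hj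
  constructor <;> omega

lemma hat_iter (L : Loc) (n : ℕ) (x : X) : ((hat L)^[n] x).1 = (hatf L)^[n] x.1 := by
  induction n with
  | zero => rfl
  | succ n ih =>
    rw [Function.iterate_succ_apply', Function.iterate_succ_apply', ← ih]
    rfl

lemma LF_twice (x : X) : (hat LF)^[2] x = x := by
  apply Subtype.ext
  rw [hat_iter]
  obtain ⟨r, y, c, hy, h⟩ := exists_dec x.2
  have h1 := hatf_iter LF h hy 2
  have h2 : (LF.G y)^[2] c = c := by
    funext i
    have h3 : ∀ s, Sp y (LF.G y c) s ↔ Sp y c s := by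
      intro s
      have g : ∀ t, y t = false → LF.G y c t = c t := by
        intro t ht
        show (if Sp y c t then !(c t) else c t) = c t
        rw [if_neg]
        intro h4
        rw [h4.1] at ht
        exact absurd ht (by simp)
      constructor
      · rintro ⟨a1, a2, a3, a4, a5⟩
        rw [g _ a2] at a3
        rw [g _ a4] at a5
        exact ⟨a1, a2, a3, a4, a5⟩
      · rintro ⟨a1, a2, a3, a4, a5⟩
        refine ⟨a1, a2, ?_, a4, ?_⟩
        · rw [g _ a2]; exact a3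
        · rw [g _ a4]; exact a5
    show (if Sp y (LF.G y c) i then !(LF.G y c i) else LF.G y c i) = c i
    simp only [h3]
    show (if Sp y c i then !(if Sp y c i then !(c i) else c i) else
      (if Sp y c i then !(c i) else c i)) = c i
    by_cases h4 : Sp y c i <;> simp [h4]
  rw [h2] at h1
  exact h1.eq h

/-- The roots of the involution. -/
lemma exists_roots (k : ℕ) : ∃ L : Loc, ∀ x : X, (hat L)^[2 ^ k] x = hat LF x := by
  obtain ⟨M⟩ := exists_rule (8 * (k + 1)) (by omega)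
  refine ⟨LG M k, fun x => ?_⟩
  apply Subtype.ext
  rw [hat_iter]
  obtain ⟨r, y, c, hy, h⟩ := exists_dec x.2
  have h1 := hatf_iter (LG M k) h hy (2 ^ k)
  have h2 := dec_hatf LF h hy
  have h3 : ((LG M k).G y)^[2 ^ k] c = LF.G y c := by
    funext i
    exact GG_pow M k hy rfl c i
  rw [h3] at h1
  exact h1.eq h2

end Pool.Agent.H96au
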