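import Pool.Agent.H96au.Defs

namespace Pool.Agent.H96au

lemma W_length (y c : Bool) : (W y c).length = 4 := by cases y <;> cases c <;> rfl

lemma W_eq (y c : Bool) : W y c = [(y && c), !c, c, (y && !c)] := by
  cases y <;> cases c <;> rfl

lemma fac_length (x : ℤ → Bool) (i : ℤ) (n : ℕ) : (fac x i n).length = n := by
  simp [fac]

lemma fac_getElem (x : ℤ → Bool) (i : ℤ) (n j : ℕ) (h : j < (fac x i n).length) :
    (fac x i n)[j] = x (i + (j : ℤ)) := by
  simp [fac]

lemma fac_succ (x : ℤ → Bool) (i : ℤ) (n : ℕ) :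
    fac x i (n + 1) = x i :: fac x (i + 1) n := by
  simp only [fac, List.range_succ_eq_map, List.map_cons, List.map_map]
  congr 1
  · simp
  · apply List.map_congr_left
    intro j _
    simp only [Function.comp]
    congr 1
    push_cast
    ring

lemma fac_add (x : ℤ → Bool) (i : ℤ) (m n : ℕ) :
    fac x i (m + n) = fac x i m ++ fac x (i + m) n := by
  induction m generalizing i with
  | zero => simp [fac]
  | succ m ih =>
    rw [show m + 1 + n = (m + n) + 1 by ring, fac_succ, ih, fac_succ]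
    simp only [List.cons_append]
    congr 3
    push_cast
    ring

lemma fac_sub (x : ℤ → Bool) (i j : ℤ) (m n : ℕ) (h1 : j ≤ i) (h2 : i + m ≤ j + n) :
    fac x i m <:+: fac x j n := by
  obtain ⟨p, hp⟩ := Int.eq_ofNat_of_zero_le (sub_nonneg.2 h1)
  have hi : i = j + p := by omega
  obtain ⟨q, hq⟩ : ∃ q : ℕ, n = p + (m + q) := ⟨n - p - m, by omega⟩
  refine ⟨fac x j p, fac x (i + m) q, ?_⟩
  rw [hq, fac_add, fac_add, ← hi, List.append_assoc]

lemma Inflates.append {u v u' v' : List Bool} (h : Inflates u v) (h' : Inflates u' v') :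
    Inflates (u ++ u') (v ++ v') := by
  induction h with
  | nil => simpa using h'
  | cons y c u v _ ih =>
    rw [List.cons_append, List.append_assoc]
    exact Inflates.cons y c _ _ ih

lemma exists_inflates (u : List Bool) : ∃ v, Inflates u v := by
  induction u with
  | nil => exact ⟨[], Inflates.nil⟩
  | cons y u ih =>
    obtain ⟨v, hv⟩ := ih
    exact ⟨_, Inflates.cons y false u v hv⟩

lemma Legal.inflate {u v : List Bool} (hu : Legal u) (h : Inflates u v) : Legal v := by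
  obtain ⟨k, w, hw, s, t, hst⟩ := hu
  obtain ⟨s', hs'⟩ := exists_inflates s
  obtain ⟨t', ht'⟩ := exists_inflates t
  refine ⟨k + 1, s' ++ v ++ t', ⟨w, hw, ?_⟩, ⟨s', t', rfl⟩⟩
  rw [← hst]
  exact (hs'.append h).append ht'

lemma Legal.sub {u v : List Bool} (hv : Legal v) (h : u <:+: v) : Legal u := by
  obtain ⟨k, w, hw, hvw⟩ := hv
  exact ⟨k, w, hw, h.trans hvw⟩

lemma Dec.inflates {x : ℤ → Bool} {r : ℤ} {y c : ℤ → Bool} (h : Dec x r y c) (q : ℤ) (m : ℕ) :
    Inflates (fac y q m) (fac x (r + 4 * q) (4 * m)) := by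
  induction m generalizing q with
  | zero => simpa [fac] using Inflates.nil
  | succ m ih =>
    have h1 := h q
    rw [fac_succ, show 4 * (m + 1) = 4 * m + 1 + 1 + 1 + 1 by ring, fac_succ, fac_succ,
      fac_succ, fac_succ]
    have h2 := Inflates.cons (y q) (c q) _ _ (ih (q + 1))
    rw [W_eq] at h2
    rw [h1.1, h1.2.1]
    rw [show r + 4 * q + 1 + 1 = r + 4 * q + 2 by ring,
      show r + 4 * q + 2 + 1 = r + 4 * q + 3 by ring, h1.2.2.1, h1.2.2.2]
    rw [show r + 4 * q + 3 + 1 = r + 4 * (q + 1) by ring]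
    exact h2

lemma mem_of_dec {x : ℤ → Bool} {r : ℤ} {y c : ℤ → Bool} (h : Dec x r y c) (hy : y ∈ X) :
    x ∈ X := by
  intro i n
  have h1 := (hy ((i - r) / 4) (n + 1)).inflate (h.inflates ((i - r) / 4) (n + 1))
  exact h1.sub (fac_sub _ _ _ _ _ (by omega) (by push_cast; omega))

lemma dec_rcp (r : ℤ) (y c : ℤ → Bool) : Dec (rcp r y c) r y c := by
  intro i
  have e0 : (r + 4 * i - r) / 4 = i := by omega
  have e1 : (r + 4 * i + 1 - r) / 4 = i := by omega
  have e2 : (r + 4 * i + 2 - r) / 4 = i := by omega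
  have e3 : (r + 4 * i + 3 - r) / 4 = i := by omega
  have m0 : (r + 4 * i - r) % 4 = 0 := by omega
  have m1 : (r + 4 * i + 1 - r) % 4 = 1 := by omega
  have m2 : (r + 4 * i + 2 - r) % 4 = 2 := by omega
  have m3 : (r + 4 * i + 3 - r) % 4 = 3 := by omega
  refine ⟨?_, ?_, ?_, ?_⟩
  · simp only [rcp, e0, m0, Wf]; simp
  · simp only [rcp, e1, m1, Wf]; simp
  · simp only [rcp, e2, m2, Wf]; simp
  · simp only [rcp, e3, m3, Wf]; simp

lemma Dec.eq {x x' : ℤ → Bool} {r : ℤ} {y c : ℤ → Bool} (h : Dec x r y c) (h' : Dec x' r y c) :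
    x = x' := by
  funext n
  obtain ⟨q, t, hq, ht0, ht4⟩ : ∃ q t : ℤ, n = r + 4 * q + t ∧ 0 ≤ t ∧ t < 4 :=
    ⟨(n - r) / 4, (n - r) % 4, by omega, by omega, by omega⟩
  have h1 := h q
  have h2 := h' q
  obtain rfl | rfl | rfl | rfl : t = 0 ∨ t = 1 ∨ t = 2 ∨ t = 3 := by omega
  · rw [hq, add_zero, h1.1, h2.1]
  · rw [hq, h1.2.1, h2.2.1]
  · rw [hq, h1.2.2.1, h2.2.2.1]
  · rw [hq, h1.2.2.2, h2.2.2.2]

/-- The letters decoded from x at the residue r. -/
def yd (x : ℤ → Bool) (r : ℤ) : ℤ → Bool := fun i => (x (r + 4 * i) || x (r + 4 * i + 3))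

/-- The choices decoded from x at the residue r. -/
def cd (x : ℤ → Bool) (r : ℤ) : ℤ → Bool := fun i => x (r + 4 * i + 2)

lemma Dec.yd_eq {x : ℤ → Bool} {r : ℤ} {y c : ℤ → Bool} (h : Dec x r y c) : yd x r = y := by
  funext i
  have h1 := h i
  simp only [yd, h1.1, h1.2.2.2]
  cases y i <;> cases c i <;> rfl

lemma Dec.cd_eq {x : ℤ → Bool} {r : ℤ} {y c : ℤ → Bool} (h : Dec x r y c) : cd x r = c := by
  funext i
  have h1 := h i
  simp only [cd, h1.2.2.1]

lemma Dec.unique {x : ℤ → Bool} {r : ℤ} {y c y' c' : ℤ → Bool} (h : Dec x r y c)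
    (h' : Dec x r y' c') : y = y' ∧ c = c' :=
  ⟨by rw [← h.yd_eq, h'.yd_eq], by rw [← h.cd_eq, h'.cd_eq]⟩

lemma Dec.shift {x : ℤ → Bool} {r : ℤ} {y c : ℤ → Bool} (h : Dec x r y c) (j : ℤ) :
    Dec x (r + 4 * j) (fun n => y (n + j)) (fun n => c (n + j)) := by
  intro i
  have h1 := h (i + j)
  rw [show r + 4 * (i + j) = r + 4 * j + 4 * i by ring] at h1
  exact h1

lemma Dec.translate {x : ℤ → Bool} {r : ℤ} {y c : ℤ → Bool} (h : Dec x r y c) (j : ℤ) :
    Dec (fun n => x (n + j)) (r - j) y c := by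
  intro i
  have h1 := h i
  have e : r - j + 4 * i + j = r + 4 * i := by ring
  have e1 : r - j + 4 * i + 1 + j = r + 4 * i + 1 := by ring
  have e2 : r - j + 4 * i + 2 + j = r + 4 * i + 2 := by ring
  have e3 : r - j + 4 * i + 3 + j = r + 4 * i + 3 := by ring
  simp only [e, e1, e2, e3]
  exact h1

lemma shift_mem {x : ℤ → Bool} (hx : x ∈ X) (j : ℤ) : (fun n => x (n + j)) ∈ X := by
  intro i n
  have := hx (i + j) n
  convert this using 1
  simp only [fac]
  apply List.map_congr_left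
  intro t _
  congr 1
  ring

lemma Inflates.spec {u v : List Bool} (h : Inflates u v) :
    v.length = 4 * u.length ∧ ∀ j, j < u.length → ∃ c, ∀ t, t < 4 →
      v.getD (4 * j + t) false = (W (u.getD j false) c).getD t false := by
  induction h with
  | nil => simp
  | cons y c u v _ ih =>
    refine ⟨?_, ?_⟩
    · simp only [List.length_append, W_length, ih.1, List.length_cons]; ring
    · intro j hj
      rcases Nat.eq_zero_or_pos j with rfl | hj0
      · refine ⟨c, fun t ht => ?_⟩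
        rw [mul_zero, zero_add, List.getD_append _ _ _ _ (by rw [W_length]; exact ht)]
        simp
      · obtain ⟨j, rfl⟩ : ∃ j', j = j' + 1 := ⟨j - 1, by omega⟩
        obtain ⟨c', hc'⟩ := ih.2 j (by simpa using hj)
        refine ⟨c', fun t ht => ?_⟩
        rw [List.getD_append_right _ _ _ _ (by rw [W_length]; omega), W_length,
          show 4 * (j + 1) + t - 4 = 4 * j + t by omega, hc' t ht]
        simp

/-- Validity of the blocks near the origin for the residue r. -/
def Q (x : ℤ → Bool) (r : ℤ) (n : ℕ) : Prop :=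
  (∀ i : ℤ, |i| ≤ n → x (r + 4 * i) = (yd x r i && cd x r i) ∧ x (r + 4 * i + 1) = !(cd x r i) ∧
    x (r + 4 * i + 2) = cd x r i ∧ x (r + 4 * i + 3) = (yd x r i && !(cd x r i))) ∧
  Legal (fac (yd x r) (-(n : ℤ)) (2 * n + 1))

lemma Q.mono {x : ℤ → Bool} {r : ℤ} {n m : ℕ} (h : Q x r n) (hm : m ≤ n) : Q x r m := by
  refine ⟨fun i hi => h.1 i (hi.trans (by exact_mod_cast hm)), h.2.sub ?_⟩
  exact fac_sub _ _ _ _ _ (by omega) (by push_cast; omega)

lemma fac_getD (x : ℤ → Bool) (i : ℤ) (n j : ℕ) (h : j < n) :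
    (fac x i n).getD j false = x (i + (j : ℤ)) := by
  rw [List.getD_eq_getElem _ _ (by rw [fac_length]; exact h), fac_getElem]

lemma exists_Q {x : ℤ → Bool} (hx : x ∈ X) (n : ℕ) : ∃ r ∈ Finset.range 4, Q x (r : ℤ) n := by
  obtain ⟨k, v, hv, s, t, hst⟩ := hx (-(4 * ((n : ℤ) + 1))) (8 * n + 12)
  have hlen : s.length + (8 * n + 12) + t.length = v.length := by
    rw [← hst]; simp only [List.length_append, fac_length]
  rcases k with _ | k
  · have hv' : v = [false] := hv
    rw [hv'] at hlen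
    simp at hlen
    omega
  obtain ⟨u, hu, huv⟩ : ∃ u ∈ Lev k, Inflates u v := hv
  obtain ⟨hvl, hblk⟩ := huv.spec
  have hval : ∀ j : ℕ, j < 8 * n + 12 → x (-(4 * ((n : ℤ) + 1)) + j) = v.getD (s.length + j) false := by
    intro j hj
    rw [← fac_getD x _ _ j hj, ← hst, List.append_assoc,
      List.getD_append_right _ _ _ _ (by omega), Nat.add_sub_cancel_left,
      List.getD_append _ _ _ _ (by rw [fac_length]; exact hj)]
  set p := s.length with hp
  obtain ⟨e, j0, he, hj0⟩ : ∃ e j0 : ℕ, e < 4 ∧ p + e = 4 * j0 :=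
    ⟨(4 - p % 4) % 4, (p + (4 - p % 4) % 4) / 4, by omega, by omega⟩
  -- the block number j of x
  have hb : ∀ j : ℕ, j < 2 * n + 2 → ∃ c, ∀ t : ℕ, t < 4 →
      x (-(4 * ((n : ℤ) + 1)) + e + 4 * j + t) = (W (u.getD (j0 + j) false) c).getD t false := by
    intro j hj
    obtain ⟨c, hc⟩ := hblk (j0 + j) (by omega)
    refine ⟨c, fun t ht => ?_⟩
    rw [← hc t ht]
    have h1 := hval (e + 4 * j + t) (by omega)
    have h2 : -(4 * ((n : ℤ) + 1)) + ((e + 4 * j + t : ℕ) : ℤ)
        = -(4 * ((n : ℤ) + 1)) + e + 4 * j + t := by push_cast; ring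
    rw [h2] at h1
    rw [h1]
    congr 1
    omega
  have hb' : ∀ i : ℤ, |i| ≤ n → yd x e i = u.getD (j0 + (i + n + 1).toNat) false ∧
      (x (e + 4 * i) = (yd x e i && cd x e i) ∧ x (e + 4 * i + 1) = !(cd x e i) ∧
      x (e + 4 * i + 2) = cd x e i ∧ x (e + 4 * i + 3) = (yd x e i && !(cd x e i))) := by
    intro i hi
    rw [abs_le] at hi
    obtain ⟨j, hj⟩ := Int.eq_ofNat_of_zero_le (show (0 : ℤ) ≤ i + n + 1 by omega)
    obtain ⟨c, hc⟩ := hb j (by omega)
    have e0 : -(4 * ((n : ℤ) + 1)) + e + 4 * j = e + 4 * i := by omega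
    rw [e0] at hc
    have h0 := hc 0 (by norm_num)
    have h1 := hc 1 (by norm_num)
    have h2 := hc 2 (by norm_num)
    have h3 := hc 3 (by norm_num)
    rw [W_eq] at h0 h1 h2 h3
    simp only [Nat.cast_zero, add_zero, Nat.cast_one, Nat.cast_ofNat, List.getD_cons_zero,
      List.getD_cons_succ] at h0 h1 h2 h3
    rw [hj, Int.toNat_natCast]
    simp only [yd, cd, h0, h1, h2, h3]
    cases (u.getD (j0 + j) false) <;> cases c <;> simp
  refine ⟨e, Finset.mem_range.2 he, ⟨fun i hi => (hb' i hi).2, ?_⟩⟩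
  refine ⟨k, u, hu, ?_⟩
  have hfac : fac (yd x (e : ℤ)) (-(n : ℤ)) (2 * n + 1) = (u.drop (j0 + 1)).take (2 * n + 1) := by
    apply List.ext_getElem
    · simp only [fac_length, List.length_take, List.length_drop]
      omega
    · intro i h1 h2
      rw [fac_getElem, (hb' _ (by rw [fac_length] at h1; rw [abs_le]; omega)).1]
      rw [List.getElem_take, List.getElem_drop]
      have h3 : j0 + (-(n : ℤ) + i + n + 1).toNat = j0 + 1 + i := by omega
      rw [h3, List.getD_eq_getElem]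
  rw [hfac]
  exact (List.take_prefix _ _).isInfix.trans (List.drop_suffix _ _).isInfix

lemma exists_dec {x : ℤ → Bool} (hx : x ∈ X) : ∃ r y c, y ∈ X ∧ Dec x r y c := by
  obtain ⟨r, hr⟩ : ∃ r : ℤ, ∀ n, Q x r n := by
    by_contra hcon
    push Not at hcon
    choose f hf using hcon
    obtain ⟨r, hr, hQ⟩ := exists_Q hx ((Finset.range 4).sup (fun r : ℕ => f (r : ℤ)))
    exact hf r (hQ.mono (Finset.le_sup (f := fun r : ℕ => f (r : ℤ)) hr))
  refine ⟨r, yd x r, cd x r, ?_, ?_⟩
  · intro i n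
    refine (hr (i.natAbs + n)).2.sub (fac_sub _ _ _ _ _ ?_ ?_)
    · omega
    · omega
  · intro i
    exact (hr i.natAbs).1 i (by rw [Int.abs_eq_natAbs])

/-- Every window of length 8 contains both letters. -/
lemma window {x : ℤ → Bool} (hx : x ∈ X) (n : ℤ) (b : Bool) :
    ∃ t : ℕ, t < 8 ∧ x (n + t) = b := by
  obtain ⟨r, y, c, _, h⟩ := exists_dec hx
  have h1 := h ((n - r + 3) / 4)
  obtain ⟨s, hs⟩ := Int.eq_ofNat_of_zero_le (show (0 : ℤ) ≤ r + 4 * ((n - r + 3) / 4) - n by omega)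
  have hs3 : s ≤ 3 := by omega
  by_cases hc : c ((n - r + 3) / 4) = b
  · refine ⟨s + 2, by omega, ?_⟩
    rw [← hc, ← h1.2.2.1]
    congr 1
    push_cast
    omega
  · refine ⟨s + 1, by omega, ?_⟩
    have h2 : (!(c ((n - r + 3) / 4))) = b := by
      revert hc; cases c ((n - r + 3) / 4) <;> cases b <;> simp
    rw [← h2, ← h1.2.1]
    congr 1
    push_cast
    omega

/-- The two residues r and r + 2 cannot both be cutting residues. -/
lemma not_two {x : ℤ → Bool} {r : ℤ} {y c y' c' : ℤ → Bool} (h : Dec x r y c)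
    (h' : Dec x (r + 2) y' c') (hy : y ∈ X) : False := by
  have k1 : ∀ i, c i = (y' i && c' i) := by
    intro i
    have h1 := (h i).2.2.1
    have h2 := (h' i).1
    rw [show r + 2 + 4 * i = r + 4 * i + 2 by ring, h1] at h2
    exact h2
  have k2 : ∀ i, (y i && !(c i)) = !(c' i) := by
    intro i
    have h1 := (h i).2.2.2
    have h2 := (h' i).2.1
    rw [show r + 2 + 4 * i + 1 = r + 4 * i + 3 by ring, h1] at h2
    exact h2
  have k3 : ∀ i, c' i = (y (i + 1) && c (i + 1)) := by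
    intro i
    have h1 := (h (i + 1)).1
    have h2 := (h' i).2.2.1
    rw [show r + 2 + 4 * i + 2 = r + 4 * (i + 1) by ring, h1] at h2
    exact h2.symm
  by_cases hc : ∃ i, c i = true
  · obtain ⟨i, hi⟩ := hc
    have key : ∀ n : ℕ, c (i + n) = true := by
      intro n
      induction n with
      | zero => simpa using hi
      | succ n ih =>
        have a1 := k1 (i + n)
        have a3 := k3 (i + n)
        rw [ih] at a1
        have a4 : c' (i + n) = true := by
          revert a1; cases y' (i + n) <;> cases c' (i + n) <;> simp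
        rw [a4] at a3
        have a5 : c (i + n + 1) = true := by
          revert a3; cases y (i + n + 1) <;> cases c (i + n + 1) <;> simp
        rw [← a5]
        congr 1
        push_cast
        ring
    obtain ⟨t, _, ht⟩ := window hy (i + 1) false
    have a1 := k1 (i + t)
    have a3 := k3 (i + t)
    rw [key t] at a1
    have a4 : c' (i + t) = true := by
      revert a1; cases y' (i + t) <;> cases c' (i + t) <;> simp
    rw [a4, show i + (t : ℤ) + 1 = i + 1 + t by ring, ht] at a3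
    simp at a3
  · push Not at hc
    have hc0 : ∀ i, c i = false := fun i => by simpa using hc i
    obtain ⟨t, _, ht⟩ := window hy 0 false
    have a2 := k2 (0 + t)
    have a3 := k3 (0 + t)
    rw [hc0, Bool.and_false] at a3
    rw [ht, a3] at a2
    simp at a2

lemma Dec.period {x : ℤ → Bool} {r : ℤ} {y c : ℤ → Bool} (h : Dec x r y c) (p : ℤ)
    (hp : ∀ n, x (n + p) = x n) : Dec x (r + p) y c := by
  intro i
  have h1 := h i
  refine ⟨?_, ?_, ?_, ?_⟩
  · rw [← h1.1, ← hp (r + 4 * i)]; congr 1; ring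
  · rw [← h1.2.1, ← hp (r + 4 * i + 1)]; congr 1; ring
  · rw [← h1.2.2.1, ← hp (r + 4 * i + 2)]; congr 1; ring
  · rw [← h1.2.2.2, ← hp (r + 4 * i + 3)]; congr 1; ring

lemma aperiodic (p : ℕ) (hp : 0 < p) {x : ℤ → Bool} (hx : x ∈ X) :
    ¬ ∀ n : ℤ, x (n + p) = x n := by
  induction p using Nat.strong_induction_on generalizing x with
  | _ p ih =>
  intro hper
  obtain ⟨r, y, c, hy, h⟩ := exists_dec hx
  by_cases h4 : p % 4 = 0
  · obtain ⟨q, rfl⟩ : ∃ q, p = 4 * q := ⟨p / 4, by omega⟩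
    refine ih q (by omega) (by omega) hy (fun n => ?_)
    have e : yd x r = y := h.yd_eq
    rw [← e]
    simp only [yd]
    rw [show r + 4 * (n + (q : ℤ)) = r + 4 * n + ((4 * q : ℕ) : ℤ) by push_cast; ring, hper,
      show r + 4 * n + ((4 * q : ℕ) : ℤ) + 3 = r + 4 * n + 3 + ((4 * q : ℕ) : ℤ) by ring, hper]
  · obtain ⟨p', hp', h2⟩ : ∃ p' : ℤ, (∀ n, x (n + p') = x n) ∧ p' % 4 = 2 := by
      by_cases h2 : p % 4 = 2
      · exact ⟨p, hper, by omega⟩
      · refine ⟨2 * p, fun n => ?_, by omega⟩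
        rw [show n + 2 * (p : ℤ) = n + p + p by ring, hper, hper]
    have hd := (h.period p' hp').shift (-((p' - 2) / 4))
    have e : r + p' + 4 * -((p' - 2) / 4) = r + 2 := by omega
    rw [e] at hd
    exact not_two h hd hy

end Pool.Agent.H96au
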