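import Pool.Agent.H96au.Lang

namespace Pool.Agent.H96au

lemma isClosed_X : IsClosed X := by
  have h : X = ⋂ (i : ℤ) (n : ℕ), {x : ℤ → Bool | Legal (fac x i n)} := by
    ext x
    simp [X]
  rw [h]
  refine isClosed_iInter fun i => isClosed_iInter fun n => ?_
  have h2 : {x : ℤ → Bool | Legal (fac x i n)} =
      (fun (x : ℤ → Bool) (j : Fin n) => x (i + ((j : ℕ) : ℤ))) ⁻¹' {v | Legal (List.ofFn v)} := by
    ext x
    simp only [Set.mem_preimage, Set.mem_ofPred_eq, fac]
    rw [List.ofFn_eq_map, ← List.map_coe_finRange_eq_range, List.map_map]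
    rfl
  rw [h2]
  apply IsClosed.preimage
  · exact continuous_pi fun j => continuous_apply _
  · exact isClosed_discrete _

/-- Uniform aperiodicity for one period. -/
lemma exists_radius_one (p : ℕ) (hp : 0 < p) :
    ∃ D : ℕ, ∀ x ∈ X, ∃ i : ℤ, |i| ≤ D ∧ x (i + p) ≠ x i := by
  by_contra hcon
  push Not at hcon
  let C : ℕ → Set (ℤ → Bool) := fun D => {x | x ∈ X ∧ ∀ i : ℤ, |i| ≤ D → x (i + p) = x i}
  have hcl : ∀ D, IsClosed (C D) := by
    intro D
    have h : C D = X ∩ ⋂ (i : ℤ) (_ : |i| ≤ (D : ℤ)), {x | x (i + p) = x i} := by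
      ext x
      simp [C]
    rw [h]
    refine isClosed_X.inter (isClosed_iInter fun i => isClosed_iInter fun _ => ?_)
    exact isClosed_eq (continuous_apply _) (continuous_apply _)
  have hne := IsCompact.nonempty_iInter_of_sequence_nonempty_isCompact_isClosed C
    (fun D x hx => ⟨hx.1, fun i hi => hx.2 i (hi.trans (by push_cast; omega))⟩)
    (fun D => by
      obtain ⟨x, hx, h⟩ := hcon D
      exact ⟨x, hx, h⟩)
    ((hcl 0).isCompact) hcl
  obtain ⟨x, hx⟩ := hne
  rw [Set.mem_iInter] at hx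
  refine aperiodic p hp (hx 0).1 (fun n => ?_)
  exact (hx n.natAbs).2 n (by rw [Int.abs_eq_natAbs])

/-- Uniform aperiodicity for all small periods. -/
lemma exists_radius (N : ℕ) :
    ∃ D : ℕ, ∀ p : ℕ, 0 < p → p < N → ∀ x ∈ X, ∃ i : ℤ, |i| ≤ D ∧ x (i + p) ≠ x i := by
  induction N with
  | zero => exact ⟨0, fun p _ h => absurd h (by omega)⟩
  | succ N ih =>
    obtain ⟨D, hD⟩ := ih
    rcases Nat.eq_zero_or_pos N with rfl | hN
    · exact ⟨0, fun p h1 h2 => absurd h2 (by omega)⟩
    obtain ⟨D', hD'⟩ := exists_radius_one N hN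
    refine ⟨max D D', fun p h1 h2 x hx => ?_⟩
    rcases (Nat.lt_succ_iff_lt_or_eq.1 h2) with h | rfl
    · obtain ⟨i, hi, h3⟩ := hD p h1 h x hx
      exact ⟨i, hi.trans (by push_cast; exact le_max_left _ _), h3⟩
    · obtain ⟨i, hi, h3⟩ := hD' x hx
      exact ⟨i, hi.trans (by push_cast; exact le_max_right _ _), h3⟩

/-- The window of radius D around the position n. -/
def win (D : ℕ) (x : ℤ → Bool) (n : ℤ) : Fin (2 * D + 1) → Bool :=
  fun j => x (n - D + ((j : ℕ) : ℤ))

/-- Greedy markers. -/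
def mark (N D : ℕ) (x : ℤ → Bool) : List (Fin (2 * D + 1) → Bool) → ℤ → Prop
  | [] => fun _ => False
  | w :: ws => fun n => mark N D x ws n ∨
      (win D x n = w ∧ ∀ m : ℤ, |m - n| < N → ¬ mark N D x ws m)

lemma mark_shift (N D : ℕ) (x : ℤ → Bool) (ws : List (Fin (2 * D + 1) → Bool)) (j n : ℤ) :
    mark N D (fun i => x (i + j)) ws n ↔ mark N D x ws (n + j) := by
  induction ws generalizing n with
  | nil => simp [mark]
  | cons w ws ih =>
    simp only [mark]
    have hw : win D (fun i => x (i + j)) n = win D x (n + j) := by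
      funext t
      simp only [win]
      congr 1
      ring
    rw [ih, hw]
    refine or_congr Iff.rfl (and_congr Iff.rfl ⟨fun h m hm => ?_, fun h m hm => ?_⟩)
    · have := h (m - j) (by rwa [show m - j - n = m - (n + j) by ring])
      rwa [ih, sub_add_cancel] at this
    · rw [ih]
      exact h (m + j) (by rwa [show m + j - (n + j) = m - n by ring])

lemma mark_local (N D : ℕ) (x x' : ℤ → Bool) (ws : List (Fin (2 * D + 1) → Bool)) (n : ℤ)
    (h : ∀ i : ℤ, |i - n| ≤ D + ws.length * N → x i = x' i) :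
    mark N D x ws n ↔ mark N D x' ws n := by
  induction ws generalizing n with
  | nil => simp [mark]
  | cons w ws ih =>
    simp only [List.length_cons] at h
    have hl : ((D + (ws.length + 1) * N : ℕ) : ℤ) = D + ws.length * N + N := by push_cast; ring
    have h' : ∀ m : ℤ, |m - n| ≤ N → (mark N D x ws m ↔ mark N D x' ws m) := by
      intro m hm
      refine ih m (fun i hi => h i ?_)
      have : |i - n| ≤ |i - m| + |m - n| := by
        have := abs_add_le (i - m) (m - n)
        rwa [sub_add_sub_cancel] at this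
      push_cast
      nlinarith
    have hw : win D x n = win D x' n := by
      funext t
      simp only [win]
      apply h
      have ht := t.2
      have h0 : (0 : ℤ) ≤ (ws.length + 1 : ℕ) * N := by positivity
      push_cast at h0 ⊢
      rw [abs_le]
      constructor <;> omega
    simp only [mark]
    rw [hw]
    refine or_congr (h' n (by simp)) (and_congr Iff.rfl ⟨fun h2 m hm => ?_, fun h2 m hm => ?_⟩)
    · rw [← h' m hm.le]; exact h2 m hm
    · rw [h' m hm.le]; exact h2 m hm

/-- Markers are far apart. -/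
lemma mark_sep (N D : ℕ) (x : ℤ → Bool) (ws : List (Fin (2 * D + 1) → Bool))
    (hrad : ∀ p : ℕ, 0 < p → p < N → ∀ n : ℤ, ∃ i : ℤ, |i| ≤ D ∧ x (n + i + p) ≠ x (n + i))
    (n m : ℤ) (hn : mark N D x ws n) (hm : mark N D x ws m) (hnm : |n - m| < N) : n = m := by
  induction ws generalizing n m with
  | nil => exact absurd hn (by simp [mark])
  | cons w ws ih =>
    simp only [mark] at hn hm
    rcases hn with hn | ⟨hn1, hn2⟩ <;> rcases hm with hm | ⟨hm1, hm2⟩
    · exact ih n m hn hm hnm
    · exact absurd hn (hm2 n hnm)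
    · exact absurd hm (hn2 m (by rwa [abs_sub_comm]))
    · have key : ∀ a b : ℤ, a < b → b - a < N → win D x a = win D x b → False := by
        intro a b hab hN hw
        obtain ⟨p, hp⟩ := Int.eq_ofNat_of_zero_le (show (0 : ℤ) ≤ b - a by omega)
        obtain ⟨i, hi, h1⟩ := hrad p (by omega) (by omega) a
        apply h1
        rw [abs_le] at hi
        have h2 := congrFun hw ⟨(i + D).toNat, by omega⟩
        simp only [win] at h2
        rw [show a - D + (((i + D).toNat : ℕ) : ℤ) = a + i by omega,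
          show b - D + (((i + D).toNat : ℕ) : ℤ) = a + i + p by omega] at h2
        exact h2.symm
      rcases lt_trichotomy n m with h | h | h
      · exact (key n m h (by rw [abs_lt] at hnm; omega) (hn1.trans hm1.symm)).elim
      · exact h
      · exact (key m n h (by rw [abs_lt] at hnm; omega) (hm1.trans hn1.symm)).elim

/-- Markers are relatively dense. -/
lemma mark_dense (N D : ℕ) (hN : 0 < N) (x : ℤ → Bool) (ws : List (Fin (2 * D + 1) → Bool))
    (n : ℤ) (h : win D x n ∈ ws) : ∃ m : ℤ, |m - n| < N ∧ mark N D x ws m := by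
  induction ws with
  | nil => simp at h
  | cons w ws ih =>
    by_cases h2 : ∃ m : ℤ, |m - n| < N ∧ mark N D x ws m
    · obtain ⟨m, hm, hm2⟩ := h2
      exact ⟨m, hm, Or.inl hm2⟩
    · rw [List.mem_cons] at h
      rcases h with h | h
      · push Not at h2
        exact ⟨n, by simpa using hN, Or.inr ⟨h, h2⟩⟩
      · exact absurd (ih h) h2

/-- A marker rule on the subshift. -/
structure Rule (N : ℕ) where
  mrk : (ℤ → Bool) → ℤ → Prop
  R : ℕ
  shift : ∀ (y : ℤ → Bool) (j n : ℤ), mrk (fun i => y (i + j)) n ↔ mrk y (n + j)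
  loc : ∀ (y y' : ℤ → Bool) (n : ℤ), (∀ i : ℤ, |i - n| ≤ (R : ℤ) → y i = y' i) → (mrk y n ↔ mrk y' n)
  sep : ∀ y ∈ X, ∀ n m : ℤ, mrk y n → mrk y m → |n - m| < (N : ℤ) → n = m
  dense : ∀ y ∈ X, ∀ n : ℤ, ∃ m : ℤ, |m - n| < (N : ℤ) ∧ mrk y m

lemma exists_rule (N : ℕ) (hN : 0 < N) : Nonempty (Rule N) := by
  classical
  obtain ⟨D, hD⟩ := exists_radius N
  let ws : List (Fin (2 * D + 1) → Bool) := Finset.univ.toList
  refine ⟨⟨fun y => mark N D y ws, D + ws.length * N, fun y j n => mark_shift N D y ws j n,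
    fun y y' n h => mark_local N D y y' ws n (fun i hi => h i (by push_cast; exact hi)),
    fun y hy n m => mark_sep N D y ws (fun p h1 h2 a => ?_) n m,
    fun y hy n => mark_dense N D hN y ws n (by simp [ws])⟩⟩
  obtain ⟨i, hi, h3⟩ := hD p h1 h2 _ (shift_mem hy a)
  refine ⟨i, hi, ?_⟩
  rw [show a + i + (p : ℤ) = i + p + a by ring, show a + i = i + a by ring]
  exact h3

end Pool.Agent.H96au
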